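import Mathlib
import Pool.Agent.Work.MP_b5bb8b_co.Main

namespace Pool.Agent.Results.MP_b5bb8b_co.LinearGrowth

open Pool.Agent.Work.MP_b5bb8b_co

/-- For every `n ≥ 3` the maximum `f n` of the sizes of Jordan blocks of nonbacktracking matrices
of leafless `n`-vertex graphs with an edge exists, and `(n - 29) / 14 ≤ f n ≤ 2 n + 1`. So `f`
grows linearly: it is unbounded and not sublinear. -/
theorem result : ∀ n : ℕ, 3 ≤ n →
    IsGreatest (blockSizes n) (f n) ∧ n ≤ 14 * f n + 29 ∧ f n ≤ 2 * n + 1 :=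
  fun n hn => main n hn

end Pool.Agent.Results.MP_b5bb8b_co.LinearGrowth
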